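import Pool.Agent.helper88.Vis.PartTwo
import Pool.Agent.helper13.Vis.ChainExists
import Pool.Agent.helper40.Vis.EdgeLemma
import Pool.Agent.helper18.Vis.ModC3
import Pool.Agent.helper43.Vis2.Triple
import Pool.Agent.helper55.Vis.C1
import Pool.Agent.helper24.Vis.Arith
import Pool.Agent.helper24.Vis.CA
import Pool.Agent.helper80.Vis.Pigeon
import Pool.Agent.helper47.Vis.Asm1

set_option autoImplicit false

/-! # MP_6b3417_co: the theorem -/

namespace Pool.Agent.helper88.Vis

open Pool.Agent.helper47.Vis

theorem existsChain : ExistsChainStmt := fun H V₀ hK c₀ d₀ hd hnn h2 =>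
  Pool.Agent.helper13.Vis.exists_chain_of
    (fun V hK c d hd hV hnc => Pool.Agent.helper40.Vis.edge_lemma V hK c d hd hV hnc)
    H V₀ hK c₀ d₀ hd hnn h2

theorem existsCRows : ExistsCRowsStmt := fun H V c d hC =>
  Pool.Agent.helper18.Vis.exists_crows_of Pool.Agent.helper55.Vis.exists_enum
    Pool.Agent.helper55.Vis.chain_half Pool.Agent.helper55.Vis.chain_interval
    Pool.Agent.helper43.Triple.Fn_le Pool.Agent.helper43.Triple.Fn_lt_left
    Pool.Agent.helper43.Triple.Fn_lt_right Pool.Agent.helper43.Triple.Fn_odd H V c d hC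

theorem partII : PartII :=
  partII_of existsChain existsCRows Pool.Agent.helper24.Vis.arith Pool.Agent.helper24.Vis.CA
    Pool.Agent.helper80.Vis.pigeon

end Pool.Agent.helper88.Vis
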