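import Pool.Agent.helper88.Vis.Defs

set_option autoImplicit false

/-! # MP_6b3417_co, II.5: concurrency of four consecutive lines of the chain -/

namespace Pool.Agent.helper88.Vis

open Pool.Agent.helper47.Vis

/-- Statement of the algebra lemma `CA`. -/
def CAStmt : Prop := ∀ (a b c e : (ℝ × ℝ) × (ℝ × ℝ)) (p p' x x' : ℝ × ℝ) (z : Fin 5 → ℝ × ℝ)
    (r : Fin 4 → ℝ × ℝ) (y₀ y₁ : ℝ × ℝ)
    (_hp : sd a.1 a.2 p = 0) (_hp' : sd a.1 a.2 p' = 0) (_hz : ∀ i, sd b.1 b.2 (z i) = 0)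
    (_hr : ∀ i, sd c.1 c.2 (r i) = 0) (_hy₀ : sd c.1 c.2 y₀ = 0) (_hy₁ : sd c.1 c.2 y₁ = 0)
    (_hx : sd e.1 e.2 x = 0) (_hx' : sd e.1 e.2 x' = 0)
    (_h1 : ori p (z 0) (r 0) = 0) (_h2 : ori p (z 1) (r 1) = 0) (_h3 : ori p (z 2) (r 2) = 0)
    (_h4 : ori p (z 3) (r 3) = 0) (_h1' : ori p' (z 1) (r 0) = 0) (_h2' : ori p' (z 2) (r 1) = 0)
    (_h3' : ori p' (z 3) (r 2) = 0) (_h4' : ori p' (z 4) (r 3) = 0)
    (_k1 : ori x (z 0) y₀ = 0) (_k2 : ori x' (z 2) y₀ = 0) (_k3 : ori x (z 2) y₁ = 0)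
    (_k4 : ori x' (z 4) y₁ = 0)
    (_cp : sd c.1 c.2 p ≠ 0) (_cp' : sd c.1 c.2 p' ≠ 0) (_cz : ∀ i, sd c.1 c.2 (z i) ≠ 0)
    (_cx : sd c.1 c.2 x ≠ 0) (_cx' : sd c.1 c.2 x' ≠ 0) (_bp : sd b.1 b.2 p ≠ 0)
    (_bp' : sd b.1 b.2 p' ≠ 0) (_bx : sd b.1 b.2 x ≠ 0) (_bx' : sd b.1 b.2 x' ≠ 0)
    (_hzz : z 0 ≠ z 2) (_hb : b.2 ≠ 0),
    det3 (lv a.1 a.2) (lv b.1 b.2) (lv e.1 e.2) = 0

/-- Statement of the pigeonhole lemma `pigeon`. -/
def PigeonStmt : Prop := ∀ (a0 a1 b0 b1 c0 c1 e0 e1 nb nc T : ℕ) (F G : ℕ → ℕ → ℕ)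
    (_hF1 : ∀ j k, a0 ≤ j → j + 1 < a1 → b0 ≤ k → k < b1 → F j k < F (j + 1) k)
    (_hF2 : ∀ j k, a0 ≤ j → j < a1 → b0 ≤ k → k + 1 < b1 → F j k < F j (k + 1))
    (_hF : ∀ j k, F j k ≤ 2 * nb)
    (_hG1 : ∀ j k, c0 ≤ j → j + 1 < c1 → e0 ≤ k → k < e1 → G j k < G (j + 1) k)
    (_hG2 : ∀ j k, c0 ≤ j → j < c1 → e0 ≤ k → k + 1 < e1 → G j k < G j (k + 1))
    (_hG : ∀ j k, G j k ≤ 2 * nc)
    (_hc0 : c0 ≤ 7) (_hc1 : nb ≤ c1 + 7) (_hT0 : 0 < T) (_hc : c0 < c1)
    (_hT1 : a0 + 3 * T ≤ a1) (_hT2 : b0 + 8 * T ≤ b1) (_hT3 : e0 + 4 * T ≤ e1)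
    (_hT : 2 * nb + 2 * nc + 20 + (a0 + b0 + c0 + e0) ≤ T + (a1 + b1 + c1 + e1)),
    ∃ j k m l q : ℕ, a0 ≤ j ∧ j + 3 ≤ a1 ∧ b0 ≤ k ∧ k + 7 ≤ b1 ∧ c0 ≤ m ∧ m + 5 ≤ c1 ∧ e0 ≤ l ∧
      l + 3 ≤ e1 ∧ (∀ δ ε : ℕ, δ ≤ 2 → ε ≤ 6 → F (j + δ) (k + ε) = 2 * m + 1 + δ + ε) ∧
      (∀ δ ε : ℕ, δ ≤ 4 → ε ≤ 2 → G (m + δ) (l + ε) = 2 * q + 1 + δ + ε)

lemma ori_swap (p q r : ℝ × ℝ) : ori q p r = - ori p q r := by simp only [ori]; ring
lemma ori_cyc (p q r : ℝ × ℝ) : ori q r p = ori p q r := by simp only [ori]; ring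
lemma ori_swap' (p q r : ℝ × ℝ) : ori p r q = - ori p q r := by simp only [ori]; ring

section

variable {H : ℕ} {V : ℕ → Finset (ℝ × ℝ)} {c d : ℕ → ℝ × ℝ}

lemma Chain.mem_pred (hC : Chain H V c d) {i : ℕ} (hi : i < H) {p : ℝ × ℝ} (hp : p ∈ V (i + 1)) :
    p ∈ V i ∧ 0 < sd (c i) (d i) p := by
  rw [hC.step i hi] at hp
  exact mem_fil.1 hp

lemma Chain.pos_of_mem (hC : Chain H V c d) {i k : ℕ} (hik : i < k) (hk : k ≤ H) {p : ℝ × ℝ}
    (hp : p ∈ V k) : 0 < sd (c i) (d i) p := by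
  induction k with
  | zero => omega
  | succ k ih =>
    have h := hC.mem_pred (by omega) hp
    rcases Nat.lt_succ_iff_lt_or_eq.1 hik with h1 | h1
    · exact ih h1 (by omega) h.1
    · subst h1; exact h.2

variable {pt : ℕ → ℕ → ℝ × ℝ} {n lo hi : ℕ → ℕ} {F : ℕ → ℕ → ℕ → ℕ}

lemma CRows.mem_row (hR : CRows H V c d pt n lo hi F) {i j : ℕ} (hi' : i ≤ H) (hj : j < n i) :
    pt i j ∈ V i ∧ sd (c i) (d i) (pt i j) = 0 := by
  rw [hR.card i hi'] at hj
  exact mem_fil.1 ((hR.enum i hi').mem j hj)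

lemma CRows.ne (hR : CRows H V c d pt n lo hi F) (hC : Chain H V c d) {i j k : ℕ} (hi' : i ≤ H)
    (hjk : j < k) (hk : k < n i) : pt i j ≠ pt i k := by
  rw [hR.card i hi'] at hk
  obtain ⟨t, ht, h⟩ := (hR.enum i hi').lt j k hjk hk
  intro he
  rw [← he] at h
  have h0 : t • d i = 0 := by
    have : pt i j + t • d i = pt i j + 0 := by rw [← h, add_zero]
    exact add_left_cancel this
  rcases smul_eq_zero.1 h0 with h1 | h1
  · exact ht.ne' h1
  · exact hC.dne i hi' h1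


/-- `crows_size` (II.3 d). -/
theorem CRows.size (hR : CRows H V c d pt n lo hi F) (i : ℕ) (hi' : i + 2 ≤ H) (h8 : 8 ≤ n i)
    (h4 : 4 ≤ n (i + 1)) (h1 : 1 ≤ n (i + 2)) : n i + n (i + 2) ≤ 2 * n (i + 1) + 9 := by
  obtain ⟨l1, l2, l3⟩ := hR.lohi i hi'
  have s1 : ∀ a, lo i + a < hi i → F i (lo i) 0 + a ≤ F i (lo i + a) 0 := by
    intro a
    induction a with
    | zero => intro _; exact le_rfl
    | succ a ih =>
      intro h
      have := ih (by omega)
      have h2 := hR.F_lt1 i hi' h4 (lo i + a) 0 (by omega) (by omega) (by omega)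
      rw [show lo i + (a + 1) = lo i + a + 1 by omega]
      omega
  have s2 : ∀ b, b < n (i + 2) → F i (hi i - 1) 0 + b ≤ F i (hi i - 1) b := by
    intro b
    induction b with
    | zero => intro _; exact le_rfl
    | succ b ih =>
      intro h
      have := ih (by omega)
      have h2 := hR.F_lt2 i hi' h4 (hi i - 1) b (by omega) (by omega) (by omega)
      omega
  have t1 := s1 (hi i - 1 - lo i) (by omega)
  rw [show lo i + (hi i - 1 - lo i) = hi i - 1 by omega] at t1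
  have t2 := s2 (n (i + 2) - 1) (by omega)
  have t3 := hR.F_le i hi' (hi i - 1) (n (i + 2) - 1)
  omega

/-- II.5. -/
theorem concurrent_of (hCA : CAStmt) (hpig : PigeonStmt) (hR : CRows H V c d pt n lo hi F)
    (hC : Chain H V c d) (i : ℕ) (hi' : i + 3 ≤ H) (N : ℕ)
    (hN : ∀ j, i ≤ j → j ≤ i + 3 → n j ≤ 2 * N ∧ N ≤ n j)
    (hE : 40 * ((2 * (n (i + 1) : ℤ) + 9 - n i - n (i + 2)) +
      (2 * (n (i + 2) : ℤ) + 9 - n (i + 1) - n (i + 3))) + 4000 ≤ N) :
    det3 (lv (c i) (d i)) (lv (c (i + 1)) (d (i + 1))) (lv (c (i + 3)) (d (i + 3))) = 0 ∧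
    det3 (lv (c i) (d i)) (lv (c (i + 2)) (d (i + 2))) (lv (c (i + 3)) (d (i + 3))) = 0 := by
  obtain ⟨l1, l2, l3⟩ := hR.lohi i (by omega)
  obtain ⟨m1, m2, m3⟩ := hR.lohi (i + 1) (by omega)
  have n0 := hN i le_rfl (by omega)
  have n1 := hN (i + 1) (by omega) (by omega)
  have n2 := hN (i + 2) (by omega) (by omega)
  have n3 := hN (i + 3) (by omega) le_rfl
  have N30 : 30 ≤ N := by omega
  have z1 := hR.size i (by omega) (by omega) (by omega) (by omega)
  have e1 : i + 1 + 1 = i + 2 := by omega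
  have e2 : i + 1 + 2 = i + 3 := by omega
  have z2 := hR.size (i + 1) (by omega) (by omega) (by rw [e1]; omega) (by rw [e2]; omega)
  rw [e1, e2] at z2
  have N4 : 4000 ≤ N := by omega
  -- signs
  have near1 := hR.near i (by omega)
  have near2 := hR.near (i + 1) (by omega)
  rw [e1, e2] at near2
  have odd1 := hR.F_odd i (by omega)
  have odd2 := hR.F_odd (i + 1) (by omega)
  rw [e1, e2] at odd2
  have lt1 := hR.F_lt1 i (by omega) (by omega)
  have lt2 := hR.F_lt2 i (by omega) (by omega)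
  have lt1' := hR.F_lt1 (i + 1) (by omega) (by rw [e1]; omega)
  have lt2' := hR.F_lt2 (i + 1) (by omega) (by rw [e1]; omega)
  have le1 := hR.F_le i (by omega)
  have le2 := hR.F_le (i + 1) (by omega)
  rw [e1] at le2
  rw [e2] at lt1' lt2'
  have posr : ∀ k < n (i + 3), 0 < sd (c (i + 1)) (d (i + 1)) (pt (i + 3) k) ∧
      0 < sd (c (i + 2)) (d (i + 2)) (pt (i + 3) k) := fun k hk =>
    ⟨hC.pos_of_mem (by omega) hi' (hR.mem_row hi' hk).1,
     hC.pos_of_mem (by omega) hi' (hR.mem_row hi' hk).1⟩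
  have posr2 : ∀ k < n (i + 2), 0 < sd (c (i + 1)) (d (i + 1)) (pt (i + 2) k) := fun k hk =>
    hC.pos_of_mem (by omega) (by omega) (hR.mem_row (i := i + 2) (by omega) hk).1
  constructor
  · obtain ⟨j, k, m, l, q, j1, j2, k1, k2, mm1, mm2, ll1, ll2, hF, hG⟩ :=
      hpig (lo i) (hi i) 0 (n (i + 2)) (lo (i + 1)) (hi (i + 1)) 0 (n (i + 3)) (n (i + 1))
        (n (i + 2)) (N / 10) (F i) (F (i + 1))
        (fun j k a b _ e => lt1 j k a b e) (fun j k a b _ e => lt2 j k a b e) le1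
        (fun j k a b _ e => lt1' j k a b e) (fun j k a b _ e => lt2' j k a b e) le2
        (by omega) (by omega) (by omega) (by omega) (by omega) (by omega) (by omega) (by omega)
    have A := fun (δ ε t : ℕ) (h1 : δ ≤ 2) (h2 : ε ≤ 6) (h3 : δ + ε = 2 * t) =>
      odd1 (j + δ) (k + ε) (m + t) (by omega) (by omega) (by omega)
        (by rw [hF δ ε h1 h2]; omega)
    have B := fun (δ ε t : ℕ) (h1 : δ ≤ 4) (h2 : ε ≤ 2) (h3 : δ + ε = 2 * t) =>
      odd2 (m + δ) (l + ε) (q + t) (by omega) (by omega) (by omega)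
        (by rw [hG δ ε h1 h2]; omega)
    have key := hCA (c i, d i) (c (i + 1), d (i + 1)) (c (i + 2), d (i + 2)) (c (i + 3), d (i + 3))
      (pt i j) (pt i (j + 2)) (pt (i + 3) (l + 2)) (pt (i + 3) l)
      (fun t => pt (i + 1) (m + t)) (fun t => pt (i + 2) (k + 2 * t))
      (pt (i + 2) (q + 1)) (pt (i + 2) (q + 2))
      (hR.mem_row (by omega) (by omega)).2 (hR.mem_row (by omega) (by omega)).2
      (fun t => (hR.mem_row (i := i + 1) (by omega) (by omega)).2)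
      (fun t => (hR.mem_row (i := i + 2) (by omega) (by omega)).2)
      (hR.mem_row (i := i + 2) (by omega) (B 0 2 1 (by omega) (by omega) (by omega)).1).2
      (hR.mem_row (i := i + 2) (by omega) (B 2 2 2 (by omega) (by omega) (by omega)).1).2
      (hR.mem_row (i := i + 3) (by omega) (by omega)).2
      (hR.mem_row (i := i + 3) (by omega) (by omega)).2
      (by rw [ori_swap', neg_eq_zero]; exact (A 0 0 0 (by omega) (by omega) (by omega)).2)
      (by rw [ori_swap', neg_eq_zero]; exact (A 0 2 1 (by omega) (by omega) (by omega)).2)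
      (by rw [ori_swap', neg_eq_zero]; exact (A 0 4 2 (by omega) (by omega) (by omega)).2)
      (by rw [ori_swap', neg_eq_zero]; exact (A 0 6 3 (by omega) (by omega) (by omega)).2)
      (by rw [ori_swap', neg_eq_zero]; exact (A 2 0 1 (by omega) (by omega) (by omega)).2)
      (by rw [ori_swap', neg_eq_zero]; exact (A 2 2 2 (by omega) (by omega) (by omega)).2)
      (by rw [ori_swap', neg_eq_zero]; exact (A 2 4 3 (by omega) (by omega) (by omega)).2)
      (by rw [ori_swap', neg_eq_zero]; exact (A 2 6 4 (by omega) (by omega) (by omega)).2)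
      (by rw [ori_swap, neg_eq_zero]; exact (B 0 2 1 (by omega) (by omega) (by omega)).2)
      (by rw [ori_swap, neg_eq_zero]; exact (B 2 0 1 (by omega) (by omega) (by omega)).2)
      (by rw [ori_swap, neg_eq_zero]; exact (B 2 2 2 (by omega) (by omega) (by omega)).2)
      (by rw [ori_swap, neg_eq_zero]; exact (B 4 0 2 (by omega) (by omega) (by omega)).2)
      (near1 j (by omega) (by omega)).2.ne (near1 (j + 2) (by omega) (by omega)).2.ne
      (fun t => (near2 (m + t) (by omega) (by omega)).1.ne)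
      (posr (l + 2) (by omega)).2.ne' (posr l (by omega)).2.ne'
      (near1 j (by omega) (by omega)).1.ne (near1 (j + 2) (by omega) (by omega)).1.ne
      (posr (l + 2) (by omega)).1.ne' (posr l (by omega)).1.ne'
      (hR.ne hC (i := i + 1) (by omega) (by simp) (by simp; omega))
      (hC.dne (i + 1) (by omega))
    exact key
  · obtain ⟨j, k, m, l, q, j1, j2, k1, k2, mm1, mm2, ll1, ll2, hF, hG⟩ :=
      hpig 0 (n (i + 3)) (lo (i + 1)) (hi (i + 1)) 0 (n (i + 2)) (lo i) (hi i) (n (i + 2))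
        (n (i + 1)) (N / 10) (fun l m => F (i + 1) m l) (fun k j => F i j k)
        (fun j k _ b a e => lt2' k j a e b) (fun j k _ b a e => lt1' k j a e b)
        (fun j k => le2 k j)
        (fun j k _ b a e => lt2 k j a e b) (fun j k _ b a e => lt1 k j a e b)
        (fun j k => le1 k j)
        (by omega) (by omega) (by omega) (by omega) (by omega) (by omega) (by omega) (by omega)
    have A := fun (δ ε t : ℕ) (h1 : δ ≤ 2) (h2 : ε ≤ 6) (h3 : δ + ε = 2 * t) =>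
      odd2 (k + ε) (j + δ) (m + t) (by omega) (by omega) (by omega)
        (by rw [hF δ ε h1 h2]; omega)
    have B := fun (δ ε t : ℕ) (h1 : δ ≤ 4) (h2 : ε ≤ 2) (h3 : δ + ε = 2 * t) =>
      odd1 (l + ε) (m + δ) (q + t) (by omega) (by omega) (by omega)
        (by rw [hG δ ε h1 h2]; omega)
    have key := hCA (c (i + 3), d (i + 3)) (c (i + 2), d (i + 2)) (c (i + 1), d (i + 1)) (c i, d i)
      (pt (i + 3) j) (pt (i + 3) (j + 2)) (pt i (l + 2)) (pt i l)
      (fun t => pt (i + 2) (m + t)) (fun t => pt (i + 1) (k + 2 * t))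
      (pt (i + 1) (q + 1)) (pt (i + 1) (q + 2))
      (hR.mem_row (by omega) (by omega)).2 (hR.mem_row (by omega) (by omega)).2
      (fun t => (hR.mem_row (i := i + 2) (by omega) (by omega)).2)
      (fun t => (hR.mem_row (i := i + 1) (by omega) (by omega)).2)
      (hR.mem_row (i := i + 1) (by omega) (B 0 2 1 (by omega) (by omega) (by omega)).1).2
      (hR.mem_row (i := i + 1) (by omega) (B 2 2 2 (by omega) (by omega) (by omega)).1).2
      (hR.mem_row (by omega) (by omega)).2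
      (hR.mem_row (by omega) (by omega)).2
      (by rw [ori_cyc]; exact (A 0 0 0 (by omega) (by omega) (by omega)).2)
      (by rw [ori_cyc]; exact (A 0 2 1 (by omega) (by omega) (by omega)).2)
      (by rw [ori_cyc]; exact (A 0 4 2 (by omega) (by omega) (by omega)).2)
      (by rw [ori_cyc]; exact (A 0 6 3 (by omega) (by omega) (by omega)).2)
      (by rw [ori_cyc]; exact (A 2 0 1 (by omega) (by omega) (by omega)).2)
      (by rw [ori_cyc]; exact (A 2 2 2 (by omega) (by omega) (by omega)).2)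
      (by rw [ori_cyc]; exact (A 2 4 3 (by omega) (by omega) (by omega)).2)
      (by rw [ori_cyc]; exact (A 2 6 4 (by omega) (by omega) (by omega)).2)
      (B 0 2 1 (by omega) (by omega) (by omega)).2
      (B 2 0 1 (by omega) (by omega) (by omega)).2
      (B 2 2 2 (by omega) (by omega) (by omega)).2
      (B 4 0 2 (by omega) (by omega) (by omega)).2
      (posr j (by omega)).1.ne' (posr (j + 2) (by omega)).1.ne'
      (fun t => (posr2 (m + t) (by omega)).ne')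
      (near1 (l + 2) (by omega) (by omega)).1.ne (near1 l (by omega) (by omega)).1.ne
      (posr j (by omega)).2.ne' (posr (j + 2) (by omega)).2.ne'
      (near1 (l + 2) (by omega) (by omega)).2.ne (near1 l (by omega) (by omega)).2.ne
      (hR.ne hC (i := i + 2) (by omega) (by simp) (by simp; omega))
      (hC.dne (i + 2) (by omega))
    simp only [det3] at key ⊢
    linarith

end

end Pool.Agent.helper88.Vis
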