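import Pool.Agent.helper47.Vis.Rows

set_option autoImplicit false

/-!
# MP_6b3417_co, parts I and II: definitions
-/

namespace Pool.Agent.helper88.Vis

open Pool.Agent.helper47.Vis

/-- Orientation determinant `[p, q, r]` (positive iff `r` is strictly left of `p → q`). -/
def ori (p q r : ℝ × ℝ) : ℝ := (q.1 - p.1) * (r.2 - p.2) - (q.2 - p.2) * (r.1 - p.1)

/-- Signed side of `p` with respect to the line through `c` with direction `d`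
(positive = left of the direction `d`). -/
def sd (c d p : ℝ × ℝ) : ℝ := d.1 * (p.2 - c.2) - d.2 * (p.1 - c.1)

/-- Classical filter. -/
noncomputable def fil (P : Finset (ℝ × ℝ)) (q : ℝ × ℝ → Prop) : Finset (ℝ × ℝ) := by
  classical exact P.filter q

@[simp] lemma mem_fil {P : Finset (ℝ × ℝ)} {q : ℝ × ℝ → Prop} {x : ℝ × ℝ} :
    x ∈ fil P q ↔ x ∈ P ∧ q x := by
  classical
  unfold fil
  simp

lemma fil_subset (P : Finset (ℝ × ℝ)) (q : ℝ × ℝ → Prop) : fil P q ⊆ P := fun _ hx =>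
  (mem_fil.1 hx).1

/-- Restriction to a convex set keeps `K5free`. -/
lemma K5free.convex {P : Set (ℝ × ℝ)} (h : K5free P) {C : Set (ℝ × ℝ)} (hC : Convex ℝ C)
    {Q : Set (ℝ × ℝ)} (hQ : ∀ p, p ∈ Q ↔ p ∈ P ∧ p ∈ C) : K5free Q := by
  rintro ⟨f, hf, hs⟩
  refine h ⟨f, fun i => ((hQ _).1 (hf i)).1, fun i j hij => ⟨(hs i j hij).1, fun r hr hrs => ?_⟩⟩
  exact (hs i j hij).2 r ((hQ r).2 ⟨hr, hC.openSegment_subset ((hQ _).1 (hf i)).2
    ((hQ _).1 (hf j)).2 hrs⟩) hrs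

lemma sd_openSegment {c d p q r : ℝ × ℝ} (h : r ∈ openSegment ℝ p q) :
    ∃ a b : ℝ, 0 < a ∧ 0 < b ∧ a + b = 1 ∧ sd c d r = a * sd c d p + b * sd c d q := by
  obtain ⟨a, b, ha, hb, hab, rfl⟩ := h
  refine ⟨a, b, ha, hb, hab, ?_⟩
  have hb' : b = 1 - a := by linarith
  subst hb'
  simp only [sd, Prod.fst_add, Prod.snd_add, Prod.smul_fst, Prod.smul_snd, smul_eq_mul]
  ring

/-! ### Part I -/

/-- Points of `P` on the boundary of the convex hull of `P`. -/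
noncomputable def Bd (P : Finset (ℝ × ℝ)) : Finset (ℝ × ℝ) :=
  fil P (fun p => ∃ f : ℝ × ℝ, f ≠ 0 ∧ ∀ r ∈ P, f.1 * p.1 + f.2 * p.2 ≤ f.1 * r.1 + f.2 * r.2)

/-- No line contains `ℓ` points of `P`. -/
def NoLine (P : Finset (ℝ × ℝ)) (ℓ : ℕ) : Prop :=
  ∀ c d : ℝ × ℝ, d ≠ 0 → (fil P (fun p => sd c d p = 0)).card < ℓ

/-- Directed hull edge between consecutive boundary points. -/
structure Edge (P : Finset (ℝ × ℝ)) (p q : ℝ × ℝ) : Prop where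
  hp : p ∈ P
  hq : q ∈ P
  ne : p ≠ q
  left : ∀ r ∈ P, 0 ≤ ori p q r
  empty : ∀ r ∈ P, r ∉ openSegment ℝ p q

/-- `P` is not contained in a line. -/
def NonCol (P : Finset (ℝ × ℝ)) : Prop := ∃ a ∈ P, ∃ b ∈ P, ∃ c ∈ P, ori a b c ≠ 0

/-- Remove the boundary layer. -/
noncomputable def inner (P : Finset (ℝ × ℝ)) : Finset (ℝ × ℝ) := fil P (fun p => p ∉ Bd P)

/-- Convex layers. -/
noncomputable def layer (P : Finset (ℝ × ℝ)) : ℕ → Finset (ℝ × ℝ)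
  | 0 => P
  | n + 1 => inner (layer P n)

/-! ### Part II -/

/-- Points of `V i` on the line `(c i, d i)`. -/
noncomputable def row (V : ℕ → Finset (ℝ × ℝ)) (c d : ℕ → ℝ × ℝ) (i : ℕ) : Finset (ℝ × ℝ) :=
  fil (V i) (fun p => sd (c i) (d i) p = 0)

/-- The chain of lines. -/
structure Chain (H : ℕ) (V : ℕ → Finset (ℝ × ℝ)) (c d : ℕ → ℝ × ℝ) : Prop where
  K5 : ∀ i ≤ H, K5free (V i : Set (ℝ × ℝ))
  dne : ∀ i ≤ H, d i ≠ 0
  nonneg : ∀ i ≤ H, ∀ p ∈ V i, 0 ≤ sd (c i) (d i) p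
  step : ∀ i < H, V (i + 1) = fil (V i) (fun p => 0 < sd (c i) (d i) p)
  two : ∀ i ≤ H, 2 ≤ (row V c d i).card
  bad : ∀ i < H, (fil (V i) (fun p => sd (c i) (d i) p = 0 ∧
    0 ≤ sd (c (i + 1)) (d (i + 1)) p)).card ≤ 2
  low : ∀ i < H, ∃ u ∈ V (i + 1), sd (c (i + 1)) (d (i + 1)) u = 0 ∧
    ∀ p ∈ V (i + 1), sd (c i) (d i) u ≤ sd (c i) (d i) p

/-- Ordered enumeration of a finite set on a line of direction `d`. -/
structure Enum (S : Finset (ℝ × ℝ)) (d : ℝ × ℝ) (e : ℕ → ℝ × ℝ) : Prop where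
  mem : ∀ j < S.card, e j ∈ S
  surj : ∀ p ∈ S, ∃ j < S.card, e j = p
  lt : ∀ j k, j < k → k < S.card → ∃ t : ℝ, 0 < t ∧ e k = e j + t • d

/-- Position of the crossing of the segment `s r` with the middle row `Z`
(twice the number of points before it, plus one if it is a point of `Z`). -/
noncomputable def Fn (Z : Finset (ℝ × ℝ)) (s r : ℝ × ℝ) : ℕ :=
  2 * (fil Z (fun z => 0 < ori s r z)).card + (fil Z (fun z => ori s r z = 0)).card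

/-- All the combinatorial data of a chain. -/
structure CRows (H : ℕ) (V : ℕ → Finset (ℝ × ℝ)) (c d : ℕ → ℝ × ℝ) (pt : ℕ → ℕ → ℝ × ℝ)
    (n lo hi : ℕ → ℕ) (F : ℕ → ℕ → ℕ → ℕ) : Prop where
  card : ∀ i ≤ H, n i = (row V c d i).card
  enum : ∀ i ≤ H, Enum (row V c d i) (d i) (pt i)
  lohi : ∀ i, i + 2 ≤ H → lo i ≤ hi i ∧ hi i ≤ n i ∧ n i + lo i ≤ hi i + 7
  near : ∀ i, i + 2 ≤ H → ∀ j, lo i ≤ j → j < hi i →
    sd (c (i + 1)) (d (i + 1)) (pt i j) < 0 ∧ sd (c (i + 2)) (d (i + 2)) (pt i j) < 0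
  half : ∀ i, i + 2 ≤ H → n i ≤ 2 * n (i + 1) + 3
  F_le : ∀ i, i + 2 ≤ H → ∀ j k, F i j k ≤ 2 * n (i + 1)
  F_lt1 : ∀ i, i + 2 ≤ H → 4 ≤ n (i + 1) → ∀ j k, lo i ≤ j → j + 1 < hi i → k < n (i + 2) →
    F i j k < F i (j + 1) k
  F_lt2 : ∀ i, i + 2 ≤ H → 4 ≤ n (i + 1) → ∀ j k, lo i ≤ j → j < hi i → k + 1 < n (i + 2) →
    F i j k < F i j (k + 1)
  F_odd : ∀ i, i + 2 ≤ H → ∀ j k m, lo i ≤ j → j < hi i → k < n (i + 2) → F i j k = 2 * m + 1 →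
    m < n (i + 1) ∧ ori (pt i j) (pt (i + 2) k) (pt (i + 1) m) = 0

/-- Coefficients of the affine function `sd c d`. -/
def lv (c d : ℝ × ℝ) : Fin 3 → ℝ := ![-d.2, d.1, d.2 * c.1 - d.1 * c.2]

lemma sd_eq_lv (c d p : ℝ × ℝ) : sd c d p = lv c d 0 * p.1 + lv c d 1 * p.2 + lv c d 2 := by
  simp [sd, lv]; ring

/-- `3 × 3` determinant of three coefficient vectors. -/
def det3 (u v w : Fin 3 → ℝ) : ℝ :=
  u 0 * (v 1 * w 2 - v 2 * w 1) - u 1 * (v 0 * w 2 - v 2 * w 0) + u 2 * (v 0 * w 1 - v 1 * w 0)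

end Pool.Agent.helper88.Vis
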