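import Pool.Agent.helper88.Vis.Conc
import Pool.Agent.helper47.Vis.Asm2b
import Pool.Agent.helper68.Vis.Comp
import Pool.Agent.helper68.Vis.Chart
import Pool.Agent.helper47.Vis.Final

set_option autoImplicit false

/-! # MP_6b3417_co, II.9: assembly of part II -/

namespace Pool.Agent.helper88.Vis

open Pool.Agent.helper47.Vis

def ExistsChainStmt : Prop := ∀ (H : ℕ) (V₀ : Finset (ℝ × ℝ)) (_hK : K5free (V₀ : Set (ℝ × ℝ)))
    (c₀ d₀ : ℝ × ℝ) (_hd : d₀ ≠ 0) (_hnn : ∀ p ∈ V₀, 0 ≤ sd c₀ d₀ p)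
    (_h2 : 2 ≤ (fil V₀ (fun p => sd c₀ d₀ p = 0)).card),
    (∃ V c d, V 0 = V₀ ∧ c 0 = c₀ ∧ d 0 = d₀ ∧ Chain H V c d) ∨
    (∃ L : ℕ → (ℝ × ℝ) × (ℝ × ℝ), (∀ j, (L j).2 ≠ 0) ∧
      ∀ p ∈ V₀, ∃ j ≤ H, sd (L j).1 (L j).2 p = 0)

def ExistsCRowsStmt : Prop := ∀ (H : ℕ) (V : ℕ → Finset (ℝ × ℝ)) (c d : ℕ → ℝ × ℝ)
    (_hC : Chain H V c d), ∃ pt n lo hi F, CRows H V c d pt n lo hi F

def ArithStmt : Prop := ∀ (H : ℕ) (_hH : 12 ≤ H), ∃ C : ℕ, ∀ n : ℕ → ℕ, C ≤ n 0 →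
    (∀ i ≤ H, n i ≤ n 0) →
    (∀ i, i + 2 ≤ H → n i ≤ 2 * n (i + 1) + 3) →
    (∀ i, i + 2 ≤ H → 8 ≤ n i → 4 ≤ n (i + 1) → n i + n (i + 2) ≤ 2 * n (i + 1) + 9) →
    (∀ i, 4 * i ≤ H → n 0 ≤ 2 * n i ∧ 11 ≤ n i) ∧
    (∀ m, 4 * m ≤ H → (H : ℤ) * ∑ i ∈ Finset.range m,
      (2 * (n (i + 1) : ℤ) + 9 - n i - n (i + 2)) ≤ 4 * n 0)

lemma convex_sd (c d : ℝ × ℝ) : Convex ℝ {p : ℝ × ℝ | 0 ≤ sd c d p} := by
  intro p hp q hq a b ha hb hab
  have hb' : b = 1 - a := by linarith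
  subst hb'
  simp only [Set.mem_ofPred_eq] at hp hq ⊢
  have : sd c d (a • p + (1 - a) • q) = a * sd c d p + (1 - a) * sd c d q := by
    simp only [sd, Prod.fst_add, Prod.snd_add, Prod.smul_fst, Prod.smul_snd, smul_eq_mul]
    ring
  rw [this]
  have := mul_nonneg ha hp
  have := mul_nonneg hb hq
  linarith

lemma Chain.subset_zero {H : ℕ} {V : ℕ → Finset (ℝ × ℝ)} {c d : ℕ → ℝ × ℝ} (hC : Chain H V c d)
    {i : ℕ} (hi : i ≤ H) : V i ⊆ V 0 := by
  induction i with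
  | zero => exact Finset.Subset.refl _
  | succ i ih =>
    intro p hp
    exact ih (by omega) (hC.mem_pred (by omega) hp).1

theorem partII_of (hEC : ExistsChainStmt) (hCR : ExistsCRowsStmt) (hAr : ArithStmt)
    (hCA : CAStmt) (hpig : PigeonStmt) : PartII := by
  intro M hM
  obtain ⟨S, hS⟩ := parallel_rows M hM
  set H : ℕ := 1000 + 4 * (M + 10) + 8 * S with hH
  obtain ⟨C, hC⟩ := hAr H (by omega)
  refine ⟨C + 20000 + 2 * S, H, ?_⟩
  intro P hK c₀ d₀ hd hl hmax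
  set V₀ : Finset (ℝ × ℝ) := fil P (fun p => 0 ≤ sd c₀ d₀ p) with hV₀
  have hKV : K5free (V₀ : Set (ℝ × ℝ)) := by
    refine K5free.convex hK (convex_sd c₀ d₀) (fun p => ?_)
    simp [hV₀, mem_fil]
  have hrow0 : fil V₀ (fun p => sd c₀ d₀ p = 0) = fil P (fun p => sd c₀ d₀ p = 0) := by
    ext p
    simp only [hV₀, mem_fil]
    constructor
    · rintro ⟨⟨h1, h2⟩, h3⟩; exact ⟨h1, h3⟩
    · rintro ⟨h1, h3⟩; exact ⟨⟨h1, h3.ge⟩, h3⟩
  rcases hEC H V₀ hKV c₀ d₀ hd (fun p hp => (mem_fil.1 hp).2) (by rw [hrow0]; omega) with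
    ⟨V, c, d, hV0, hc0, hd0, hCh⟩ | ⟨L, hL, hcov⟩
  swap
  · left
    exact ⟨L, hL, fun p hp h => hcov p (mem_fil.2 ⟨hp, h⟩)⟩
  right
  obtain ⟨pt, n, lo, hi, F, hR⟩ := hCR H V c d hCh
  have hn0 : n 0 = (fil P (fun p => sd c₀ d₀ p = 0)).card := by
    rw [hR.card 0 (by omega), row, hV0, hc0, hd0, hrow0]
  have hle : ∀ i ≤ H, n i ≤ n 0 := by
    intro i hi'
    rw [hR.card i hi', hn0]
    refine le_trans (Finset.card_le_card ?_) (hmax (c i) (d i) (hCh.dne i hi'))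
    intro p hp
    rw [row, mem_fil] at hp
    have := hCh.subset_zero hi' hp.1
    rw [hV0] at this
    exact mem_fil.2 ⟨(mem_fil.1 this).1, hp.2⟩
  have htwo : ∀ i ≤ H, 2 ≤ n i := fun i hi' => by rw [hR.card i hi']; exact hCh.two i hi'
  have hsize : ∀ i, i + 2 ≤ H → 8 ≤ n i → 4 ≤ n (i + 1) → n i + n (i + 2) ≤ 2 * n (i + 1) + 9 :=
    fun i h1 h2 h3 => hR.size i h1 h2 h3 (by have := htwo (i + 2) h1; omega)
  obtain ⟨big, sums⟩ := hC n (by omega) hle hR.half hsize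
  -- nonnegativity of the defects
  set e : ℕ → ℤ := fun i => 2 * (n (i + 1) : ℤ) + 9 - n i - n (i + 2) with he
  have e0 : ∀ i, i ≤ M + 5 → 0 ≤ e i := by
    intro i hi'
    have h1 := (big i (by omega)).2
    have h2 := (big (i + 1) (by omega)).2
    have := hsize i (by omega) (by omega) (by omega)
    simp only [he]
    omega
  have eS : ∀ m, m ≤ M + 6 → (H : ℤ) * ∑ i ∈ Finset.range m, e i ≤ 4 * n 0 := fun m hm =>
    sums m (by omega)
  have hpos : ∀ m, m ≤ M + 6 → 0 ≤ ∑ i ∈ Finset.range m, e i := fun m hm =>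
    Finset.sum_nonneg (fun i hi' => e0 i (by have := Finset.mem_range.1 hi'; omega))
  -- concurrency
  have hconc : ∀ i, i + 3 ≤ (M + 2) + 1 →
      det3 (lv (c i) (d i)) (lv (c (i + 1)) (d (i + 1))) (lv (c (i + 3)) (d (i + 3))) = 0 ∧
      det3 (lv (c i) (d i)) (lv (c (i + 2)) (d (i + 2))) (lv (c (i + 3)) (d (i + 3))) = 0 := by
    intro i hi'
    refine concurrent_of hCA hpig hR hCh i (by omega) ((n 0 + 1) / 2) ?_ ?_
    · intro j _ hj
      have h1 := (big j (by omega)).1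
      have h2 := hle j (by omega)
      omega
    · have h1 := eS (i + 2) (by omega)
      have h0 := hpos (i + 2) (by omega)
      have h2 : e i + e (i + 1) ≤ ∑ k ∈ Finset.range (i + 2), e k := by
        rw [Finset.sum_range_succ, Finset.sum_range_succ]
        have := hpos i (by omega)
        linarith
      have h3 : (1000 : ℤ) * ∑ k ∈ Finset.range (i + 2), e k ≤ 4 * n 0 := by
        refine le_trans (mul_le_mul_of_nonneg_right ?_ h0) h1
        push_cast [hH]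
        omega
      have h4 : e i + e (i + 1) = (2 * (n (i + 1) : ℤ) + 9 - n i - n (i + 2)) +
        (2 * (n (i + 2) : ℤ) + 9 - n (i + 1) - n (i + 3)) := by
        simp only [he]
      rw [← h4]
      omega
  obtain ⟨A, hA, hA2, η, x, hrows⟩ := helper68.Vis.Chart.chart H (M + 2) (by omega) (by omega) V c d hCh
    (fun i hi' => by
      have := (big i (by omega)).2
      rw [hR.card i (by omega)] at this
      omega) hconc
  -- the set in the chart
  have hV1 : ∀ p, p ∈ V 1 ↔ p ∈ P ∧ 0 < sd c₀ d₀ p := by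
    intro p
    rw [hCh.step 0 (by omega), mem_fil, hV0, hc0, hd0, mem_fil]
    constructor
    · rintro ⟨⟨h1, -⟩, h3⟩; exact ⟨h1, h3⟩
    · rintro ⟨h1, h3⟩; exact ⟨⟨h1, h3.le⟩, h3⟩
  have hpos1 : ∀ p ∈ (V 1 : Set (ℝ × ℝ)), 0 < aff A 2 p := by
    intro p hp
    rw [hA2, hc0, hd0]
    exact ((hV1 p).1 (by exact_mod_cast hp)).2
  have hKW : K5free (pmap A '' (V 1 : Set (ℝ × ℝ))) :=
    helper68.Vis.Chart.K5free_pmap A hA _ hpos1 (hCh.K5 1 (by omega))
  obtain ⟨B, hB⟩ := hS (pmap A '' (V 1 : Set (ℝ × ℝ))) ((V 1).finite_toSet.image _) hKW η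
    (fun i => (row V c d (i + 1)).card) x hrows (n 0) (by
      intro i hi'
      have h1 := (big (i + 1) (by omega)).1
      have h2 := hle (i + 1) (by omega)
      rw [hR.card (i + 1) (by omega)] at h1 h2
      constructor
      · exact h2
      · show n 0 ≤ 3 * (row V c d (i + 1)).card
        omega) (by
      have h1 := eS (M + 2) (by omega)
      have h0 := hpos (M + 2) (by omega)
      have h2 : ∑ i ∈ Finset.range (M + 1), (2 * (((row V c d (i + 1 + 1)).card : ℕ) : ℤ) + 2 -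
          ((row V c d (i + 1)).card : ℕ) - ((row V c d (i + 2 + 1)).card : ℕ)) ≤
          ∑ i ∈ Finset.range (M + 2), e i := by
        rw [Finset.sum_range_succ' e (M + 1)]
        have h3 : ∑ i ∈ Finset.range (M + 1), (2 * (((row V c d (i + 1 + 1)).card : ℕ) : ℤ) + 2 -
          ((row V c d (i + 1)).card : ℕ) - ((row V c d (i + 2 + 1)).card : ℕ)) ≤
            ∑ i ∈ Finset.range (M + 1), e (i + 1) := by
          refine Finset.sum_le_sum (fun i hi' => ?_)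
          have hi2 := Finset.mem_range.1 hi'
          simp only [he]
          rw [hR.card (i + 1) (by omega), hR.card (i + 1 + 1) (by omega),
            show i + 1 + 2 = i + 2 + 1 by omega, hR.card (i + 2 + 1) (by omega)]
          omega
        have := e0 0 (by omega)
        linarith
      have h3 : (8 * (S : ℤ)) * ∑ k ∈ Finset.range (M + 2), e k ≤ 4 * n 0 := by
        refine le_trans (mul_le_mul_of_nonneg_right ?_ h0) h1
        push_cast [hH]
        omega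
      have h4 : (S : ℤ) * (∑ i ∈ Finset.range (M + 1), (2 * (((row V c d (i + 1 + 1)).card : ℕ) : ℤ)
          + 2 - ((row V c d (i + 1)).card : ℕ) - ((row V c d (i + 2 + 1)).card : ℕ))) ≤
          (S : ℤ) * ∑ k ∈ Finset.range (M + 2), e k :=
        mul_le_mul_of_nonneg_left h2 (by positivity)
      have h5 : (2 * S : ℤ) ≤ n 0 := by
        have : 2 * S ≤ n 0 := by omega
        exact_mod_cast this
      rw [mul_add, mul_one]
      nlinarith)
  refine ⟨B * A, helper68.Vis.windowHyp_comp (P : Set (ℝ × ℝ)) _ B A hA ?_ M hB⟩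
  congr 1
  ext p
  simp only [Finset.mem_coe, Set.mem_setOf_eq]
  rw [hV1, hA2, hc0, hd0]

/-- The frozen statement from the remaining modules. -/
theorem frozen_of' (hB : BigLine) (hEC : ExistsChainStmt) (hCR : ExistsCRowsStmt)
    (hAr : ArithStmt) (hCA : CAStmt) (hpig : PigeonStmt) :
    ∃ c : ℕ, ∀ P : Finset (ℝ × ℝ), ∀ G : SimpleGraph ↥P,
      (∀ p q : ↥P, G.Adj p q ↔
        (p ≠ q ∧ ∀ r ∈ P, r ∉ openSegment ℝ (p : ℝ × ℝ) (q : ℝ × ℝ))) →
      G.CliqueFree 5 → G.Colorable c :=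
  frozen_of hB (partII_of hEC hCR hAr hCA hpig)

end Pool.Agent.helper88.Vis
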